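import Pool.Agent.T9h19.LS.Interp
import Pool.Agent.T9h44.LS5.Stm3

/-!
# Marcinkiewicz interpolation between (4,4) and (∞,∞)
-/

set_option autoImplicit false

namespace Pool.Agent.T9h18.LS

open MeasureTheory Set
open scoped ENNReal
open Pool.Agent.T9h19.LS (Nice lint_low cheb)

lemma inner_high4 {p c a : ℝ} (hp : 4 < p) (hc : 0 < c) (ha : 0 ≤ a) :
    ∫⁻ t in Ioi (0 : ℝ), (if c * t < a then ENNReal.ofReal (a ^ 4) else 0) *
        ENNReal.ofReal (t ^ (p - 5)) =
      ENNReal.ofReal (c ^ (4 - p) / (p - 4)) * ENNReal.ofReal (a ^ p) := by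
  have h1 : ∀ t ∈ Ioi (0 : ℝ), (if c * t < a then ENNReal.ofReal (a ^ 4) else 0) *
        ENNReal.ofReal (t ^ (p - 5)) =
      (Ioo 0 (a / c)).indicator
        (fun t : ℝ => ENNReal.ofReal (a ^ 4) * ENNReal.ofReal (t ^ (p - 5))) t := by
    intro t ht
    have ht0 : 0 < t := ht
    by_cases h : c * t < a
    · rw [if_pos h, indicator_of_mem]
      exact ⟨ht0, by rw [lt_div_iff₀ hc]; linarith⟩
    · rw [if_neg h, indicator_of_notMem, zero_mul]
      intro h2
      apply h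
      have := (lt_div_iff₀ hc).mp h2.2
      linarith
  rw [setLIntegral_congr_fun measurableSet_Ioi h1,
    lintegral_indicator measurableSet_Ioo, Measure.restrict_restrict measurableSet_Ioo,
    inter_eq_left.mpr (fun t ht => ht.1), lintegral_const_mul' _ _ ENNReal.ofReal_ne_top,
    setLIntegral_congr (Ioo_ae_eq_Ioc), lint_low (by linarith) (by positivity),
    ← ENNReal.ofReal_mul (by positivity), ← ENNReal.ofReal_mul (by
      have : 0 < p - 4 := by linarith
      positivity)]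
  congr 1
  rcases ha.eq_or_lt with rfl | ha
  · simp [Real.zero_rpow (by linarith : p ≠ 0)]
  · rw [Real.div_rpow ha.le hc.le]
    have e1 : p - 5 + 1 = p - 4 := by ring
    rw [e1]
    have e2 : a ^ p = a ^ 4 * a ^ (p - 4) := by
      rw [← Real.rpow_natCast, ← Real.rpow_add ha]
      congr 1
      push_cast
      ring
    have e3 : c ^ (4 - p) = (c ^ (p - 4))⁻¹ := by
      rw [← Real.rpow_neg hc.le]
      congr 1
      ring
    rw [e2, e3]
    field_simp

/-- interpolation between the exponents `4` and `∞` -/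
theorem interp_inf {Y X : Type*} [MeasurableSpace Y] [MeasurableSpace X] {ν : Measure Y}
    [SFinite ν] {μ : Measure X} {p : ℝ} (hp4 : 4 < p)
    (T : (Y → ℂ) → X → ℂ) {A4 : ℝ≥0∞} {Ai : ℝ} (hAi : 0 < Ai)
    (hT : ∀ F, Nice ν F → AEStronglyMeasurable (T F) μ)
    (h4 : ∀ F, Nice ν F → ∫⁻ x, ‖T F x‖ₑ ^ (4 : ℝ) ∂μ ≤ A4 * ∫⁻ y, ‖F y‖ₑ ^ (4 : ℝ) ∂ν)
    (hi : ∀ F, Nice ν F → ∀ B : ℝ, (∀ y, ‖F y‖ ≤ B) → ∀ᵐ x ∂μ, ‖T F x‖ ≤ Ai * B)
    (hs : ∀ F G, Nice ν F → Nice ν G → ∀ᵐ x ∂μ, ‖T (F + G) x‖ ≤ ‖T F x‖ + ‖T G x‖)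
    {F : Y → ℂ} (hF : Nice ν F) :
    ∫⁻ x, ‖T F x‖ₑ ^ p ∂μ ≤ ENNReal.ofReal p *
      (16 * A4 * ENNReal.ofReal ((1 / (2 * Ai)) ^ (4 - p) / (p - 4))) * ∫⁻ y, ‖F y‖ₑ ^ p ∂ν := by
  obtain ⟨hFm, hFi, B, hB⟩ := hF
  have hp0 : 0 < p := by linarith
  obtain ⟨c, hc⟩ : ∃ c : ℝ, c = 1 / (2 * Ai) := ⟨_, rfl⟩
  have hc0 : 0 < c := by rw [hc]; positivity
  have hAc : Ai * c = 1 / 2 := by
    rw [hc]
    field_simp
  rw [← hc]
  set Hh : ℝ → Y → ℝ≥0∞ := fun t y => (if c * t < ‖F y‖ then ENNReal.ofReal (‖F y‖ ^ 4) else 0) *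
    ENNReal.ofReal (t ^ (p - 5)) with hHh
  have hmh : Measurable (Function.uncurry Hh) := by
    apply Measurable.mul
    · apply Measurable.ite
      · exact measurableSet_lt (by fun_prop) (by fun_prop)
      · fun_prop
      · fun_prop
    · fun_prop
  -- the pointwise bound
  have key : ∀ t ∈ Ioi (0 : ℝ), μ {x | t < ‖T F x‖} * ENNReal.ofReal (t ^ (p - 1)) ≤
      16 * A4 * ∫⁻ y, Hh t y ∂ν := by
    intro t ht
    have ht0 : 0 < t := ht
    set Fh : Y → ℂ := fun y => if c * t < ‖F y‖ then F y else 0 with hFh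
    set Fl : Y → ℂ := fun y => if ‖F y‖ ≤ c * t then F y else 0 with hFl
    have hsum : F = Fh + Fl := by
      funext y
      simp only [hFh, hFl, Pi.add_apply]
      by_cases h : c * t < ‖F y‖
      · rw [if_pos h, if_neg (not_le.mpr h), add_zero]
      · rw [if_neg h, if_pos (not_lt.mp h), zero_add]
    have nh : Nice ν Fh := by
      have hm : Measurable Fh := Measurable.ite (measurableSet_lt (by fun_prop) (by fun_prop))
        hFm measurable_const
      refine ⟨hm, hFi.mono hm.aestronglyMeasurable (Filter.Eventually.of_forall fun y => ?_), B,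
        fun y => ?_⟩
      · simp only [hFh]
        split_ifs
        · exact le_rfl
        · simp
      · simp only [hFh]
        split_ifs
        · exact hB y
        · simpa using (norm_nonneg (F y)).trans (hB y)
    have nl : Nice ν Fl := by
      have hm : Measurable Fl := Measurable.ite (measurableSet_le (by fun_prop) (by fun_prop))
        hFm measurable_const
      refine ⟨hm, hFi.mono hm.aestronglyMeasurable (Filter.Eventually.of_forall fun y => ?_), B,
        fun y => ?_⟩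
      · simp only [hFl]
        split_ifs
        · exact le_rfl
        · simp
      · simp only [hFl]
        split_ifs
        · exact hB y
        · simpa using (norm_nonneg (F y)).trans (hB y)
    have hFlb : ∀ y, ‖Fl y‖ ≤ c * t := by
      intro y
      simp only [hFl]
      split_ifs with h
      · exact h
      · rw [norm_zero]
        positivity
    have hsub : μ {x | t < ‖T F x‖} ≤ μ {x | t / 2 < ‖T Fh x‖} := by
      refine measure_mono_ae ?_
      have h := hs Fh Fl nh nl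
      rw [← hsum] at h
      filter_upwards [h, hi Fl nl (c * t) hFlb] with x hx hx3
      intro hx2
      have hx4 : t < ‖T F x‖ := hx2
      change t / 2 < ‖T Fh x‖
      have e : Ai * (c * t) = t / 2 := by
        rw [← mul_assoc, hAc]
        ring
      rw [e] at hx3
      linarith
    have e4 : ∫⁻ y, ‖Fh y‖ₑ ^ (4 : ℝ) ∂ν =
        ∫⁻ y, (if c * t < ‖F y‖ then ENNReal.ofReal (‖F y‖ ^ 4) else 0) ∂ν := by
      refine lintegral_congr fun y => ?_
      simp only [hFh]
      split_ifs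
      · rw [show (4 : ℝ) = ((4 : ℕ) : ℝ) by norm_num, ENNReal.rpow_natCast, ← ofReal_norm,
          ← ENNReal.ofReal_pow (norm_nonneg _)]
      · simp
    have c4 := cheb (hT Fh nh) (half_pos ht0) 4
    push_cast at c4
    have b4 := h4 Fh nh
    rw [e4] at b4
    have i4 : ∫⁻ y, Hh t y ∂ν =
        (∫⁻ y, (if c * t < ‖F y‖ then ENNReal.ofReal (‖F y‖ ^ 4) else 0) ∂ν) *
          ENNReal.ofReal (t ^ (p - 5)) := by
      simp only [hHh]
      rw [lintegral_mul_const' _ _ ENNReal.ofReal_ne_top]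
    have r4 : ENNReal.ofReal (((t / 2) ^ 4)⁻¹) * ENNReal.ofReal (t ^ (p - 1)) =
        16 * ENNReal.ofReal (t ^ (p - 5)) := by
      rw [← ENNReal.ofReal_mul (by positivity), show (16 : ℝ≥0∞) = ENNReal.ofReal 16 by simp,
        ← ENNReal.ofReal_mul (by positivity)]
      congr 1
      have : t ^ (p - 1) = t ^ (p - 5) * t ^ 4 := by
        rw [← Real.rpow_natCast, ← Real.rpow_add ht0]
        congr 1
        push_cast
        ring
      rw [this]
      field_simp
      norm_num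
    rw [i4]
    set I4 := ∫⁻ y, (if c * t < ‖F y‖ then ENNReal.ofReal (‖F y‖ ^ 4) else 0) ∂ν
    calc μ {x | t < ‖T F x‖} * ENNReal.ofReal (t ^ (p - 1))
        ≤ (ENNReal.ofReal (((t / 2) ^ 4)⁻¹) * (A4 * I4)) * ENNReal.ofReal (t ^ (p - 1)) := by
          gcongr
          refine hsub.trans ?_
          exact c4.trans (by gcongr)
      _ = (ENNReal.ofReal (((t / 2) ^ 4)⁻¹) * ENNReal.ofReal (t ^ (p - 1))) * (A4 * I4) := by
          ring
      _ = 16 * A4 * (I4 * ENNReal.ofReal (t ^ (p - 5))) := by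
          rw [r4]
          ring
  -- layer cake
  have lc : ∫⁻ x, ‖T F x‖ₑ ^ p ∂μ =
      ENNReal.ofReal p * ∫⁻ t in Ioi (0 : ℝ), μ {x | t < ‖T F x‖} * ENNReal.ofReal (t ^ (p - 1)) := by
    rw [← lintegral_rpow_eq_lintegral_meas_lt_mul μ
      (Filter.Eventually.of_forall fun x => norm_nonneg _)
      (hT F ⟨hFm, hFi, B, hB⟩).norm.aemeasurable hp0]
    refine lintegral_congr fun x => ?_
    rw [← ofReal_norm, ENNReal.ofReal_rpow_of_nonneg (norm_nonneg _) hp0.le]
  have sw4 : ∫⁻ t in Ioi (0 : ℝ), ∫⁻ y, Hh t y ∂ν =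
      ENNReal.ofReal (c ^ (4 - p) / (p - 4)) * ∫⁻ y, ‖F y‖ₑ ^ p ∂ν := by
    rw [lintegral_lintegral_swap hmh.aemeasurable, ← lintegral_const_mul' _ _ ENNReal.ofReal_ne_top]
    refine lintegral_congr fun y => ?_
    rw [← ofReal_norm, ENNReal.ofReal_rpow_of_nonneg (norm_nonneg _) hp0.le]
    exact inner_high4 hp4 hc0 (norm_nonneg _)
  have m4 : Measurable fun t : ℝ => ∫⁻ y, Hh t y ∂ν := hmh.lintegral_prod_right'
  calc ∫⁻ x, ‖T F x‖ₑ ^ p ∂μ
      ≤ ENNReal.ofReal p * ∫⁻ t in Ioi (0 : ℝ), (16 * A4 * ∫⁻ y, Hh t y ∂ν) := by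
        rw [lc]
        exact mul_le_mul' le_rfl (setLIntegral_mono' measurableSet_Ioi key)
    _ = ENNReal.ofReal p * (16 * A4 * ∫⁻ t in Ioi (0 : ℝ), ∫⁻ y, Hh t y ∂ν) := by
        rw [lintegral_const_mul _ m4]
    _ = _ := by
        rw [sw4]
        ring

open Pool.Agent.T9h44.LS5 in
/-- (H2) interpolation between the exponents `4` and `∞` -/
theorem inf (p : ℝ) (hp : 4 < p) : S_INF p := by
  have d1 : 0 < p - 4 := by linarith
  refine ⟨p * (16 * (2 ^ (p - 4) / (p - 4))), by positivity, ?_⟩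
  intro X _ μ n T A4 Ai hAi hT h4 hi hs F hFm hFi hFB
  refine (interp_inf hp T hAi (fun F hF => hT F hF.1 hF.2.1 hF.2.2)
    (fun F hF => h4 F hF.1 hF.2.1 hF.2.2) (fun F hF => hi F hF.1 hF.2.1)
    (fun F G hF hG => Filter.Eventually.of_forall
      (hs F G hF.1 hF.2.1 hF.2.2 hG.1 hG.2.1 hG.2.2)) ⟨hFm, hFi, hFB⟩).trans (le_of_eq ?_)
  have e1 : (1 / (2 * Ai)) ^ (4 - p) = 2 ^ (p - 4) * Ai ^ (p - 4) := by
    rw [one_div, Real.inv_rpow (by positivity), ← Real.rpow_neg (by positivity), neg_sub,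
      Real.mul_rpow (by norm_num) hAi.le]
  have e2 : ENNReal.ofReal (p * (16 * (2 ^ (p - 4) / (p - 4))) * Ai ^ (p - 4)) =
      ENNReal.ofReal p * (16 * ENNReal.ofReal ((1 / (2 * Ai)) ^ (4 - p) / (p - 4))) := by
    rw [show (16 : ℝ≥0∞) = ENNReal.ofReal 16 by simp, ← ENNReal.ofReal_mul (by positivity),
      ← ENNReal.ofReal_mul (by positivity), e1]
    congr 1
    ring
  rw [e2]
  ring

end Pool.Agent.T9h18.LS
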